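import Pool.Agent.ACK.StmtsD

/-! Row SAB of squad ACK: stars and bars. -/

namespace Pool.Agent.ACK.H89

open Pool.Agent.ACK.D
open scoped BigOperators

theorem sab : SabStmt := by
  classical
  intro m
  let e : {b : Fin 6 → ℕ // ∑ i, b i = m} ≃
      {f : Fin 6 →₀ ℕ // f ∈ Finset.finsuppAntidiag (Finset.univ : Finset (Fin 6)) m} :=
    Equiv.subtypeEquiv Finsupp.equivFunOnFinite.symm (fun b => by
      rw [Finset.mem_finsuppAntidiag]
      constructor
      · intro h
        refine ⟨?_, Finset.subset_univ _⟩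
        rw [← h]
        rfl
      · intro h
        rw [← h.1]
        rfl)
  have : Finite {b : Fin 6 → ℕ // ∑ i, b i = m} := Finite.of_equiv _ e.symm
  refine ⟨inferInstance, ?_⟩
  rw [Nat.card_congr e]
  have h1 : Nat.card {f : Fin 6 →₀ ℕ //
      f ∈ Finset.finsuppAntidiag (Finset.univ : Finset (Fin 6)) m} =
      (Finset.finsuppAntidiag (Finset.univ : Finset (Fin 6)) m).card := by
    rw [Nat.card_eq_fintype_card, Fintype.card_coe]
  rw [h1, Finset.card_finsuppAntidiag_nat_eq_choose]
  simp only [Finset.card_univ, Fintype.card_fin]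
  have h2 : 6 + m - 1 = m + 5 := by omega
  rw [h2]
  exact Nat.choose_symm_of_eq_add (by ring)

end Pool.Agent.ACK.H89
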